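import Pool.Agent.H482R3.EB.Main

set_option autoImplicit false

/-! Word problem for Artin groups: a combination theorem (project of helper482; formalised
with helpers 6, 16, 18, 19, 36, 48, 51, 75, 127, 131, 142, 180, 213, 225, 231, 240, 248, 265,
296, 303, 305, 320, 325, 329, 334, 338, 339, 344, 347, 364, 466, 475, 484, 514, 545, 605, 615,
616, 634, 676, 689, 690, 700, 708, 750, 755, 797, 806, 816, 837, 844, 894, 910, 940, 942, 966
and 976). -/

namespace Pool.Agent.Results.MP_a1ec0a_al.Combination

/-- The Artin group on `Fin n` with labels `m` (`0` stands for infinity). -/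
abbrev Artin {n : ℕ} (m : Fin n → Fin n → ℕ) : Type :=
  PresentedGroup
    {r : FreeGroup (Fin n) | ∃ i j : Fin n, m i j ≠ 0 ∧
      r = ((CoxeterSystem.alternatingWord i j (m i j)).map FreeGroup.of).prod *
        (((CoxeterSystem.alternatingWord j i (m i j)).map FreeGroup.of).prod)⁻¹}

/-- The Artin group with labels `m` has solvable word problem: it is decidable whether a word in
the generators (`true`) and their inverses (`false`) represents the identity. -/
def Solvable {n : ℕ} (m : Fin n → Fin n → ℕ) : Prop :=
  ComputablePred (fun u : List (Fin n × Bool) =>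
    (u.map (fun a => if a.2 then (PresentedGroup.of a.1 : Artin m)
      else (PresentedGroup.of a.1)⁻¹)).prod = 1)

/-- The restriction of a Coxeter matrix along an injection. -/
def restr {n a : ℕ} (M : CoxeterMatrix (Fin n)) (f : Fin a → Fin n)
    (hf : Function.Injective f) : CoxeterMatrix (Fin a) where
  M := Matrix.of fun i j => M (f i) (f j)
  isSymm := by
    ext i j
    simp [Matrix.transpose_apply, M.symmetric]
  diagonal := fun i => by simp
  off_diagonal := fun i j h => by
    simpa using M.off_diagonal _ _ (fun h' => h (hf h'))

/-- The left part of a splitting `Fin n = Fin a ⊔ Fin b`. -/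
def left {a b n : ℕ} (M : CoxeterMatrix (Fin n)) (e : Fin a ⊕ Fin b ≃ Fin n) :
    CoxeterMatrix (Fin a) :=
  restr M (fun i => e (.inl i)) (fun i j h => by simpa using e.injective h)

/-- The right part of a splitting `Fin n = Fin a ⊔ Fin b`. -/
def right {a b n : ℕ} (M : CoxeterMatrix (Fin n)) (e : Fin a ⊕ Fin b ≃ Fin n) :
    CoxeterMatrix (Fin b) :=
  restr M (fun i => e (.inr i)) (fun i j h => by simpa using e.injective h)

/-- The smallest class of Coxeter matrices containing all those whose Artin group has solvable
word problem and all those of rank at most 2, and closed under `prod` (the generators split in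
two parts, all labels between the parts are 2) and `join` (the generators split in two parts,
every label between the parts is even and at least 4, or infinite; the labels inside the parts
are arbitrary). -/
inductive Built : (n : ℕ) → CoxeterMatrix (Fin n) → Prop
  | known (n : ℕ) (M : CoxeterMatrix (Fin n)) (h : Solvable M) : Built n M
  | small (n : ℕ) (M : CoxeterMatrix (Fin n)) (hn : n ≤ 2) : Built n M
  | prod (n a b : ℕ) (M : CoxeterMatrix (Fin n)) (e : Fin a ⊕ Fin b ≃ Fin n)
      (h : ∀ i j, M (e (.inl i)) (e (.inr j)) = 2)
      (h1 : Built a (left M e)) (h2 : Built b (right M e)) : Built n M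
  | join (n a b : ℕ) (M : CoxeterMatrix (Fin n)) (e : Fin a ⊕ Fin b ≃ Fin n)
      (h : ∀ i j, Even (M (e (.inl i)) (e (.inr j))) ∧ M (e (.inl i)) (e (.inr j)) ≠ 2)
      (h1 : Built a (left M e)) (h2 : Built b (right M e)) : Built n M

/-- Every Artin group of the class has solvable word problem. -/
theorem result (n : ℕ) (M : CoxeterMatrix (Fin n)) (h : Built n M) : Solvable M := by
  induction h with
  | known n M h => exact h
  | small n M hn => exact Pool.Agent.H482R3.EB.Asm.dihb n M hn
  | prod n a b M e h _ _ ih1 ih2 => exact Pool.Agent.H482R3.EB.Asm.prodb n M a b e h ih1 ih2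
  | join n a b M e h _ _ ih1 ih2 => exact Pool.Agent.H482R3.EB.Asm.finalb n M a b e h ih1 ih2

end Pool.Agent.Results.MP_a1ec0a_al.Combination
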